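import Pool.Agent.FGT.Stmts

/-!
Squad FGT, row THA: every `T`-invariant probability gives small mass to the support of some
non-trivial element of a good group.
-/

set_option linter.unusedSectionVars false
set_option linter.unusedVariables false

namespace Pool.Agent.FGT.H48

open Filter Topology Pool.Agent.H22.CIG Pool.Agent.H67.CIP MeasureTheory Pool.Agent.FGT

universe u v

theorem countable_of_fg' {G : Type*} [Group G] (h : Group.FG G) : Countable G := by
  obtain ⟨S, hS⟩ := Group.fg_def.mp h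
  let U : Set G := (S : Set G) ∪ (S : Set G)⁻¹
  have hU : U.Finite := S.finite_toSet.union S.finite_toSet.inv
  have hUc : Countable U := hU.countable.to_subtype
  have hsurj : Function.Surjective (fun l : List U => (List.map Subtype.val l).prod) := by
    intro g
    have hg : g ∈ Subgroup.closure (S : Set G) := by rw [hS]; exact Subgroup.mem_top g
    have hg' : g ∈ Submonoid.closure U := by
      rw [← Subgroup.closure_toSubmonoid]
      exact hg
    obtain ⟨l, hl, hp⟩ := Submonoid.exists_list_of_mem_closure hg'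
    lift l to List U using hl
    exact ⟨l, hp⟩
  exact hsurj.countable

theorem countable_fg {G : Type*} [Group G] (h : Countable G) :
    {K : Subgroup G | K.FG}.Countable := by
  classical
  have h1 : {K : Subgroup G | K.FG} ⊆ Set.range (fun S : Finset G => Subgroup.closure (S : Set G)) := by
    rintro K ⟨S, hS⟩
    exact ⟨S, hS⟩
  exact (Set.countable_range _).mono h1

theorem fg_of_fi {G : Type*} [Group G] (h : Group.FG G) (N : Subgroup G) (hN : N.FiniteIndex) :
    N.FG := by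
  have := Subgroup.fg_of_index_ne_zero N
  exact (Group.fg_iff_subgroup_fg N).mp this

theorem infinite_of_relIndex {G : Type*} [Group G] (H K : Subgroup G) (hK : (K : Set G).Infinite)
    (hHK : H ≤ K) (h : H.relIndex K ≠ 0) : ∃ a ∈ H, a ≠ 1 := by
  by_contra hne
  push Not at hne
  have hb : H = ⊥ := (Subgroup.eq_bot_iff_forall H).mpr hne
  rw [hb, Subgroup.relIndex_bot_left] at h
  have : Finite K := Nat.finite_of_card_ne_zero h
  exact hK (Set.toFinite (K : Set G))

section Main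

variable {X : Type v} [TopologicalSpace X] [CompactSpace X] [MeasurableSpace X]
  {T : X ≃ₜ X} {L : Type u} [Group L] [MulAction L X]

/-- the points whose `N`-orbit does not meet `IX p K` -/
def EE (p : Piece T L) (K N : Subgroup L) : Set X := {x | ∀ g ∈ N, g • x ∉ IX p K}

theorem EE_inv (p : Piece T L) (K N N' : Subgroup L) (h : N' ≤ N) (g : L) (hg : g ∈ N') (x : X) :
    g • x ∈ EE p K N ↔ x ∈ EE p K N := by
  constructor
  · intro hx k hk
    have h1 := hx (k * g⁻¹) (N.mul_mem hk (N.inv_mem (h hg)))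
    rw [smul_smul, mul_assoc, inv_mul_cancel, mul_one] at h1
    exact h1
  · intro hx k hk
    rw [smul_smul]
    exact hx _ (N.mul_mem hk (h hg))

theorem IX_meas (p : Piece T L) (hc : ∀ s : Set X, IsClopen s → MeasurableSet s) (K : Subgroup L)
    (h1 : ∀ n : ℕ, IsClopen (WX p K n)) (h2 : (IX p K)ᶜ = ⋃ n : ℕ, WX p K n) :
    MeasurableSet (IX p K) := by
  rw [← compl_compl (IX p K), h2]
  exact (MeasurableSet.iUnion fun n => hc _ (h1 n)).compl

theorem EE_meas (p : Piece T L) [Countable L] (K N : Subgroup L) (h : MeasurableSet (IX p K))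
    (hg : ∀ g : L, Measurable (fun x : X => g • x)) : MeasurableSet (EE p K N) := by
  have h1 : EE p K N = ⋂ g : L, ⋂ _ : g ∈ N, (fun x : X => g • x) ⁻¹' (IX p K)ᶜ := by
    ext x
    simp only [EE, Set.mem_ofPred_eq, Set.mem_iInter, Set.mem_preimage, Set.mem_compl_iff]
  rw [h1]
  exact MeasurableSet.iInter fun g => MeasurableSet.iInter fun _ => hg g h.compl

theorem WX_mono (p : Piece T L) (K : Subgroup L) : Monotone (WX p K) := by
  intro a b hab x hx
  have h1 : (orb (alp p x) K 0).encard ≤ (a : ℕ∞) := hx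
  show (orb (alp p x) K 0).encard ≤ (b : ℕ∞)
  exact h1.trans (by exact_mod_cast hab)

theorem supp_meas (p : Piece T L) (hc : ∀ s : Set X, IsClopen s → MeasurableSet s) (g : L) :
    MeasurableSet {x : X | g • x ≠ x} := by
  have h1 : IsClopen {x : X | p.n g x = 0} := (isClopen_discrete {(0 : ℤ)}).preimage (p.cont g)
  have h2 : {x : X | g • x ≠ x} = {x : X | p.n g x = 0}ᶜ := by
    ext x
    rw [Set.mem_compl_iff, Set.mem_ofPred_eq, Set.mem_ofPred_eq, p.eq_zero_iff]
  rw [h2]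
  exact (hc _ h1).compl

theorem tha_aux (hMIX : MixStmt.{u, v}) (p : Piece T L) (μ : Measure X) [IsProbabilityMeasure μ]
    (hc : ∀ s : Set X, IsClopen s → MeasurableSet s) [Countable L]
    (hg : ∀ g : L, Measurable (fun x : X => g • x)) (K N N₀ : Subgroup L) (hK : K.FG)
    (hKi : (K : Set L).Infinite) (hN : N.FiniteIndex) (hN₀ : N₀.FiniteIndex) (hle : N₀ ≤ N)
    (δ : ENNReal) (hδ : 0 < δ) :
    ∃ a ∈ N₀, a ≠ 1 ∧ μ ({x : X | a • x ≠ x} ∩ EE p K N) ≤ δ := by
  obtain ⟨h1, h2, -, h4⟩ := hMIX X T L p K hK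
  have hIX := IX_meas p hc K h1 h2
  have hE := EE_meas p K N hIX hg
  -- the sets `E \ WX l` decrease to the empty set
  have hanti : Antitone fun l : ℕ => EE p K N \ WX p K l := fun a b hab =>
    Set.sdiff_subset_sdiff_right (WX_mono p K hab)
  have hmeas : ∀ l : ℕ, NullMeasurableSet (EE p K N \ WX p K l) μ := fun l =>
    (hE.diff (hc _ (h1 l))).nullMeasurableSet
  have hlim := tendsto_measure_iInter_atTop hmeas hanti ⟨0, measure_ne_top μ _⟩
  have hempty : (⋂ l : ℕ, EE p K N \ WX p K l) = ∅ := by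
    rw [Set.eq_empty_iff_forall_notMem]
    intro x hx
    rw [Set.mem_iInter] at hx
    have hx1 : x ∉ IX p K := by
      have := (hx 0).1 1 N.one_mem
      rwa [one_smul] at this
    have hx2 : x ∈ ⋃ n : ℕ, WX p K n := by
      rw [← h2]
      exact hx1
    obtain ⟨n, hn⟩ := Set.mem_iUnion.mp hx2
    exact (hx n).2 hn
  rw [hempty, measure_empty] at hlim
  obtain ⟨l, hl⟩ := (hlim.eventually (gt_mem_nhds hδ)).exists
  obtain ⟨N', hN'K, hN'i, hN'⟩ := h4 l
  have hN₀K : N₀.relIndex K ≠ 0 := by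
    intro h0
    exact hN₀.index_ne_zero (Subgroup.index_eq_zero_of_relIndex_eq_zero h0)
  obtain ⟨a, ha, ha1⟩ := infinite_of_relIndex (N' ⊓ N₀) K hKi (inf_le_left.trans hN'K)
    (Subgroup.relIndex_inf_ne_zero hN'i hN₀K)
  refine ⟨a, (Subgroup.mem_inf.mp ha).2, ha1, le_trans (measure_mono ?_) hl.le⟩
  rintro x ⟨hx1, hx2⟩
  exact ⟨hx2, fun hx3 => hx1 (hN' a (Subgroup.mem_inf.mp ha).1 x hx3)⟩

end Main

theorem tha (hORB : OrbStmt.{u}) (hMIX : MixStmt.{u, v}) (hMPL : MplStmt.{u, v})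
    (hCAE : CaeStmt.{u, v}) (hCMB : CmbStmt.{u, v}) : ThaStmt.{u, v} := by
  classical
  intro X _ _ _ T L _ _ p μ _ hG hc hT hTs s hs
  have hcount : Countable L := countable_of_fg' hG.fg
  have hpres : ∀ g : L, MeasurePreserving (fun x : X => g • x) μ μ := hMPL X T L p μ hc hT hTs
  have hmg : ∀ g : L, Measurable (fun x : X => g • x) := fun g => (hpres g).measurable
  have hIX : ∀ K : Subgroup L, K.FG → MeasurableSet (IX p K) := fun K hK => by
    obtain ⟨h1, h2, -, -⟩ := hMIX X T L p K hK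
    exact IX_meas p hc K h1 h2
  -- the good pairs
  let P : Set (Subgroup L × Subgroup L) :=
    {q | q.1.FG ∧ (q.1 : Set L).Infinite ∧ q.2.FiniteIndex}
  have hPc : P.Countable := by
    have h1 : P ⊆ {K : Subgroup L | K.FG} ×ˢ {K : Subgroup L | K.FG} := by
      rintro q ⟨h1, -, h3⟩
      exact ⟨h1, fg_of_fi hG.fg q.2 h3⟩
    exact ((countable_fg hcount).prod (countable_fg hcount)).mono h1
  have hae : ∀ᵐ x ∂μ, ∃ q ∈ P, x ∈ EE p q.1 q.2 := by
    filter_upwards [hCAE X T L p μ hG.fg hc hT hTs] with x hx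
    obtain ⟨I, hI, hcov⟩ := hx
    have hns : ¬ NS (alp p x) 0 := fun h => hORB L hG (alp p x) (alp_bdp p x) I hI 0 hcov h
    unfold NS at hns
    push Not at hns
    obtain ⟨K, hK, hKi, N, hN, h⟩ := hns
    refine ⟨(K, N), ⟨hK, hKi, hN⟩, fun g hg hgx => ?_⟩
    have h1 := (smul_mem_IX_iff p x K g).mp hgx
    exact h1 (by simpa using h g hg)
  have hPne : P.Nonempty := by
    obtain ⟨x, q, hq, -⟩ := hae.exists
    exact ⟨q, hq⟩
  obtain ⟨f, hf⟩ := hPc.exists_eq_range hPne
  have hfP : ∀ i, f i ∈ P := fun i => by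
    rw [hf]
    exact Set.mem_range_self i
  have hEm : ∀ i, MeasurableSet (EE p (f i).1 (f i).2) := fun i =>
    EE_meas p _ _ (hIX _ (hfP i).1) hmg
  obtain ⟨r, hr0, hrs⟩ := ENNReal.lt_iff_exists_nnreal_btwn.mp hs
  have hr0' : 0 < r := by exact_mod_cast hr0
  -- finitely many pairs are enough
  have hU : ∃ n : ℕ, μ (⋂ i ∈ Set.Iic n, (EE p (f i).1 (f i).2)ᶜ) < (r / 2 : NNReal) := by
    have hanti : Antitone fun n : ℕ => ⋂ i ∈ Set.Iic n, (EE p (f i).1 (f i).2)ᶜ := by
      intro a b hab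
      exact Set.biInter_subset_biInter_left (Set.Iic_subset_Iic.mpr hab)
    have hmeas : ∀ n : ℕ, NullMeasurableSet (⋂ i ∈ Set.Iic n, (EE p (f i).1 (f i).2)ᶜ) μ :=
      fun n => (MeasurableSet.biInter (Set.finite_Iic n).countable
        fun i _ => (hEm i).compl).nullMeasurableSet
    have hlim := tendsto_measure_iInter_atTop hmeas hanti ⟨0, measure_ne_top μ _⟩
    have h0 : μ (⋂ n : ℕ, ⋂ i ∈ Set.Iic n, (EE p (f i).1 (f i).2)ᶜ) = 0 := by
      refine measure_mono_null ?_ (ae_iff.mp hae)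
      intro x hx
      rw [Set.mem_ofPred_eq]
      rintro ⟨q, hq, hxq⟩
      rw [hf] at hq
      obtain ⟨i, rfl⟩ := hq
      have h1 := Set.mem_iInter.mp hx i
      have h2 := Set.mem_iInter₂.mp h1 i (Set.mem_Iic.mpr le_rfl)
      exact h2 hxq
    rw [h0] at hlim
    have hpos : (0 : ENNReal) < ((r / 2 : NNReal) : ENNReal) := by
      exact_mod_cast (half_pos hr0')
    exact (hlim.eventually (gt_mem_nhds hpos)).exists
  obtain ⟨n, hn⟩ := hU
  set N₀ : Subgroup L := ⨅ i ∈ Finset.Iic n, (f i).2 with hN₀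
  have hN₀f : N₀.FiniteIndex := Subgroup.finiteIndex_iInf' _ fun i _ => (hfP i).2.2
  have hN₀le : ∀ i ≤ n, N₀ ≤ (f i).2 := fun i hi =>
    iInf₂_le i (Finset.mem_Iic.mpr hi)
  let e : ℕ → ℕ := fun i => min i n
  have he : ∀ i, e i ≤ n := fun i => min_le_right i n
  set δ : NNReal := r / (4 * ((n + 1) * 2 ^ (n + 1))) with hδ
  have hδ0 : (0 : ENNReal) < (δ : ENNReal) := by
    have : 0 < δ := by positivity
    exact_mod_cast this
  have hex : ∀ i : ℕ, ∃ a ∈ N₀, a ≠ 1 ∧
      μ ({x : X | a • x ≠ x} ∩ EE p (f (e i)).1 (f (e i)).2) ≤ (δ : ENNReal) := fun i =>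
    tha_aux hMIX p μ hc hmg _ _ N₀ (hfP _).1 (hfP _).2.1 (hfP _).2.2 hN₀f (hN₀le _ (he i)) _ hδ0
  choose a ha1 ha2 ha3 using hex
  have hinf : Infinite L := hG.inf
  obtain ⟨b, -, hb1, hb⟩ := hCMB L hG.inf hG.fcen X μ hpres (supp_meas p hc) N₀ hN₀f n a
    (fun i => EE p (f (e i)).1 (f (e i)).2) (fun i => hEm _)
    (fun i g hg x => EE_inv p _ _ N₀ (hN₀le _ (he i)) g hg x)
    (fun i _ => ⟨ha1 i, ha2 i⟩) δ (fun i _ => ha3 i)
  refine ⟨b, hb1, lt_of_le_of_lt ?_ hrs⟩
  have hcov : {x : X | b • x ≠ x} ⊆ (⋂ i ∈ Set.Iic n, (EE p (f i).1 (f i).2)ᶜ) ∪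
      ⋃ i ∈ Finset.Iic n, ({x : X | b • x ≠ x} ∩ EE p (f (e i)).1 (f (e i)).2) := by
    intro x hx
    by_cases h : x ∈ ⋂ i ∈ Set.Iic n, (EE p (f i).1 (f i).2)ᶜ
    · exact Or.inl h
    · right
      rw [Set.mem_iInter₂] at h
      push Not at h
      obtain ⟨i, hi, hix⟩ := h
      rw [Set.mem_compl_iff, not_not] at hix
      refine Set.mem_iUnion₂.mpr ⟨i, Finset.mem_Iic.mpr hi, hx, ?_⟩
      have hei : e i = i := min_eq_left hi
      rw [hei]
      exact hix
  calc μ {x : X | b • x ≠ x} ≤ _ := measure_mono hcov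
    _ ≤ μ (⋂ i ∈ Set.Iic n, (EE p (f i).1 (f i).2)ᶜ) +
        μ (⋃ i ∈ Finset.Iic n, ({x : X | b • x ≠ x} ∩ EE p (f (e i)).1 (f (e i)).2)) :=
        measure_union_le _ _
    _ ≤ ((r / 2 : NNReal) : ENNReal) + ∑ i ∈ Finset.Iic n, (2 ^ (n + 1) * (δ : ENNReal)) := by
        refine add_le_add hn.le ((measure_biUnion_finset_le _ _).trans ?_)
        exact Finset.sum_le_sum fun i hi => hb i (Finset.mem_Iic.mp hi)
    _ = ((r / 2 + (n + 1) * (2 ^ (n + 1) * δ) : NNReal) : ENNReal) := by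
        rw [Finset.sum_const, Nat.card_Iic, nsmul_eq_mul]
        push_cast
        rfl
    _ ≤ (r : ENNReal) := by
        have h1 : (n + 1 : NNReal) * (2 ^ (n + 1) * δ) = r / 4 := by
          rw [hδ]
          have h2 : ((n + 1 : NNReal) * 2 ^ (n + 1)) ≠ 0 := by positivity
          field_simp
        have h3 : (r / 2 + (n + 1) * (2 ^ (n + 1) * δ) : NNReal) ≤ r := by
          rw [h1]
          rw [← NNReal.coe_le_coe]
          push_cast
          have : (0 : ℝ) ≤ r := r.2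
          linarith
        exact_mod_cast h3

end Pool.Agent.FGT.H48
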